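import Pool.Agent.helper66.WD.Spec

/-!
# Project WD (MP_dc9173_lc), row SYP
-/

set_option autoImplicit false

universe u

namespace Pool.Agent.WD

open MvPolynomial Pool.Agent.helper92.VC

section SYP

variable {n : ℕ} {K : Type u} [Field K]

/-- the products of exactly `m` elements -/
def SYP_P (S : Set (MvPolynomial (Fin n) K)) (m : ℕ) : Set (MvPolynomial (Fin n) K) :=
  {q | ∃ L : List (MvPolynomial (Fin n) K), (∀ p ∈ L, p ∈ S) ∧ L.length = m ∧ q = L.prod}

/-- the monomials of degree `m` -/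
def SYP_M {w : ℕ} (g : Fin w → MvPolynomial (Fin n) K) (m : ℕ) : Set (MvPolynomial (Fin n) K) :=
  {q | ∃ e : Fin w → ℕ, ∑ a, e a = m ∧ q = ∏ a, g a ^ e a}

theorem SYP_mul {w : ℕ} (g : Fin w → MvPolynomial (Fin n) K) (m : ℕ)
    (p q : MvPolynomial (Fin n) K) (hp : p ∈ Submodule.span K (Set.range g))
    (hq : q ∈ Submodule.span K (SYP_M g m)) : p * q ∈ Submodule.span K (SYP_M g (m + 1)) := by
  have h1 : p * q ∈ Submodule.span K (Set.range g) * Submodule.span K (SYP_M g m) :=
    Submodule.mul_mem_mul hp hq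
  rw [Submodule.span_mul_span] at h1
  refine Submodule.span_mono ?_ h1
  rintro _ ⟨_, ⟨a, rfl⟩, _, ⟨e, he, rfl⟩, rfl⟩
  refine ⟨fun b => e b + if b = a then 1 else 0, ?_, ?_⟩
  · rw [Finset.sum_add_distrib, he]
    simp
  · show g a * ∏ b, g b ^ e b = _
    simp_rw [pow_add]
    rw [Finset.prod_mul_distrib, mul_comm]
    congr 1
    rw [Finset.prod_eq_single a]
    · simp
    · intro b _ hb
      simp [hb]
    · intro h
      exact absurd (Finset.mem_univ a) h

theorem SYP_list {w : ℕ} (g : Fin w → MvPolynomial (Fin n) K)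
    (L : List (MvPolynomial (Fin n) K)) (hL : ∀ p ∈ L, p ∈ Submodule.span K (Set.range g)) :
    L.prod ∈ Submodule.span K (SYP_M g L.length) := by
  induction L with
  | nil =>
    apply Submodule.subset_span
    exact ⟨fun _ => 0, by simp, by simp⟩
  | cons p L ih =>
    rw [List.prod_cons, List.length_cons]
    exact SYP_mul g L.length p L.prod (hL p List.mem_cons_self)
      (ih fun q hq => hL q (List.mem_cons_of_mem _ hq))

theorem SYP_dim (w D : ℕ) (S : Set (MvPolynomial (Fin n) K)) (h : DimP w S) :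
    DimP ((D + 1) ^ w) {q | ∃ L : List (MvPolynomial (Fin n) K),
      (∀ p ∈ L, p ∈ S) ∧ L.length ≤ D ∧ q = L.prod} := by
  obtain ⟨g, hg⟩ := h
  refine ⟨fun i => ∏ a, g a ^ ((finFunctionFinEquiv.symm i : Fin w → Fin (D + 1)) a : ℕ), ?_⟩
  rintro q ⟨L, hL, hlen, rfl⟩
  have h1 := SYP_list g L (fun p hp => hg (hL p hp))
  refine Submodule.span_mono ?_ h1
  rintro _ ⟨e, he, rfl⟩
  have h2 : ∀ a, e a < D + 1 := by
    intro a
    have : e a ≤ ∑ b, e b := Finset.single_le_sum (fun _ _ => Nat.zero_le _) (Finset.mem_univ a)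
    omega
  refine ⟨finFunctionFinEquiv (fun a => (⟨e a, h2 a⟩ : Fin (D + 1))), ?_⟩
  show ∏ a, g a ^ ((finFunctionFinEquiv.symm
    (finFunctionFinEquiv (fun a => (⟨e a, h2 a⟩ : Fin (D + 1)))) : Fin w → Fin (D + 1)) a : ℕ) = _
  rw [Equiv.symm_apply_apply]

theorem SYP_cf_mul (x : Fin n) (j : ℕ) (p q : MvPolynomial (Fin n) K) :
    cf x j (p * q) = ∑ c ∈ Finset.HasAntidiagonal.antidiagonal j, cf x c.1 p * cf x c.2 q := by
  unfold cf
  rw [map_mul, Polynomial.coeff_mul]

theorem SYP_cf (x : Fin n) (S : Set (MvPolynomial (Fin n) K))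
    (L : List (MvPolynomial (Fin n) K)) (hL : ∀ p ∈ L, p ∈ S) : ∀ j,
    cf x j L.prod ∈ Submodule.span K (SYP_P {q | ∃ p ∈ S, ∃ j, q = cf x j p} L.length) := by
  induction L with
  | nil =>
    intro j
    have h1 : cf x j (1 : MvPolynomial (Fin n) K) = if j = 0 then 1 else 0 := by
      unfold cf
      rw [map_one, Polynomial.coeff_one]
    rw [List.prod_nil, h1]
    split_ifs
    · apply Submodule.subset_span
      exact ⟨[], by simp, by simp, by simp⟩
    · exact Submodule.zero_mem _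
  | cons p L ih =>
    intro j
    have ih' := ih (fun q hq => hL q (List.mem_cons_of_mem _ hq))
    rw [List.prod_cons, List.length_cons, SYP_cf_mul]
    refine Submodule.sum_mem _ fun c _ => ?_
    have h1 : cf x c.1 p * cf x c.2 L.prod ∈
        Submodule.span K {cf x c.1 p} *
          Submodule.span K (SYP_P {q | ∃ p ∈ S, ∃ j, q = cf x j p} L.length) :=
      Submodule.mul_mem_mul (Submodule.subset_span rfl) (ih' c.2)
    rw [Submodule.span_mul_span] at h1
    refine Submodule.span_mono ?_ h1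
    rintro _ ⟨_, rfl, _, ⟨L', hL', hlen, rfl⟩, rfl⟩
    refine ⟨cf x c.1 p :: L', ?_, ?_, ?_⟩
    · intro q hq
      rcases List.mem_cons.1 hq with rfl | hq
      · exact ⟨p, hL p List.mem_cons_self, c.1, rfl⟩
      · exact hL' q hq
    · rw [List.length_cons, hlen]
    · rw [List.prod_cons]

end SYP

theorem SYP (hMNP : MNP_stmt.{u}) (hSPP : SPP_stmt.{u}) : SYP_stmt.{u} := by
  intro n K _ w D l
  induction l with
  | nil =>
    intro S hS
    exact SYP_dim w D S hS
  | cons x s ih =>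
    intro S hS
    obtain ⟨h1, h2⟩ := hS
    refine ⟨SYP_dim w D S h1, ?_⟩
    have h3 := ih _ h2
    have h4 := hSPP n K _ s _ h3
    refine hMNP n K _ _ s _ _ le_rfl ?_ h4
    rintro q ⟨p, ⟨L, hL, hlen, rfl⟩, j, rfl⟩
    refine Submodule.span_mono ?_ (SYP_cf x S L hL j)
    rintro _ ⟨L', hL', hlen', rfl⟩
    exact ⟨L', hL', by omega, rfl⟩

end Pool.Agent.WD
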